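import Pool.Agent.Helper27.EV2.Rec

/-!
# EV2, labels: upward strands carry the value of their birth, every birth dies exactly once
-/

set_option autoImplicit false
set_option linter.unusedSectionVars false

namespace Pool.Agent.Helper48.EV2

open Pool.Agent.Helper27.EV2 Pool.Agent.Helper85.Exp

theorem get_mx {l : List Bool} {k : ℕ} (h : k ≤ l.length) (d : Bool) (j : ℕ) :
    ((Ext.mx k d).act l)[j]? =
      if j < k then l[j]? else if j = k then some d else if j = k + 1 then some (!d) else l[j - 2]? := by
  unfold Ext.act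
  rw [List.getElem?_append, List.length_take, min_eq_left h]
  by_cases h1 : j < k
  · rw [if_pos h1, if_pos h1, List.getElem?_take, if_pos h1]
  · rw [if_neg h1, if_neg h1]
    obtain ⟨n, rfl⟩ := Nat.exists_eq_add_of_le (not_lt.1 h1)
    rw [Nat.add_sub_cancel_left]
    rcases n with _ | _ | n
    · simp
    · simp
    · rw [if_neg (by omega), if_neg (by omega), List.getElem?_cons_succ, List.getElem?_cons_succ,
        List.getElem?_drop]
      congr 1

theorem get_mn {l : List Bool} {k : ℕ} (h : k ≤ l.length) (j : ℕ) :
    ((Ext.mn k).act l)[j]? = if j < k then l[j]? else l[j + 2]? := by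
  unfold Ext.act
  rw [List.getElem?_append, List.length_take, min_eq_left h]
  by_cases h1 : j < k
  · rw [if_pos h1, if_pos h1, List.getElem?_take, if_pos h1]
  · rw [if_neg h1, if_neg h1, List.getElem?_drop]
    congr 1
    omega

theorem lv_succ (W : Word) {r : ℕ} (hr : r < W.length) :
    lv W (r + 1) = (row W r).e.act (lv W r) := by
  unfold lv row
  rw [List.take_add_one, List.foldl_append, List.getElem?_eq_getElem hr, List.getD_eq_getElem _ _ hr]
  rfl

theorem take_succ_eq (W : Word) {r : ℕ} (hr : r < W.length) :
    W.take (r + 1) = W.take r ++ [row W r] := by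
  unfold row
  rw [List.take_add_one, List.getElem?_eq_getElem hr, List.getD_eq_getElem _ _ hr]
  rfl

theorem nb_succ_mx {W : Word} {r : ℕ} (hr : r < W.length) {k : ℕ} {d : Bool} (h : (row W r).e = .mx k d) :
    nb W (r + 1) = nb W r + 1 := by
  unfold nb maxima
  rw [take_succ_eq W hr, List.filter_append, List.length_append]
  simp [h]

theorem nb_succ_mn {W : Word} {r : ℕ} (hr : r < W.length) {k : ℕ} (h : (row W r).e = .mn k) :
    nb W (r + 1) = nb W r := by
  unfold nb maxima
  rw [take_succ_eq W hr, List.filter_append, List.length_append]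
  simp [h]

theorem mn_ok {W : Word} (hW : Ok W) {r : ℕ} (hr : r < W.length) {k : ℕ} (h : (row W r).e = .mn k) :
    ∃ d, (lv W r)[k]? = some d ∧ (lv W r)[k + 1]? = some (!d) := by
  have := hW.ext r hr
  rw [h] at this
  exact this

theorem mx_ok {W : Word} (hW : Ok W) {r : ℕ} (hr : r < W.length) {k : ℕ} {d : Bool}
    (h : (row W r).e = .mx k d) : k ≤ (lv W r).length := by
  have := hW.ext r hr
  rw [h] at this
  exact this

theorem le_of_get {l : List Bool} {k : ℕ} {d : Bool} (h : l[k]? = some d) : k ≤ l.length :=
  (List.getElem?_eq_some_iff.1 h).1.le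

/-- the letters of the row `r` are pairs of downward strands -/
theorem cr_getD {W : Word} (hW : Ok W) {r : ℕ} (hr : r < W.length) {i : ℕ} (hi : i < (row W r).w.length) :
    (lv W (r + 1))[(row W r).w.getD i 0]? = some true ∧ (lv W (r + 1))[(row W r).w.getD i 0 + 1]? = some true := by
  apply hW.cr r hr
  rw [List.getD_eq_getElem _ _ hi]
  exact List.getElem_mem hi

section Flow

variable {R M : Type} [CommRing R] [AddCommGroup M] [Module R M]

theorem frun_up {W : Word} (hW : Ok W) (t ti : R) (σ : ℕ → St) {r : ℕ} (hr : r < W.length) (u : ℕ → M)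
    {i : ℕ} (hi : i ≤ (row W r).w.length) {j : ℕ} (hj : (lv W (r + 1))[j]? = some false) :
    frun t ti σ (row W r).w u i j = u j := by
  induction i with
  | zero => rfl
  | succ i ih =>
    obtain ⟨h1, h2⟩ := cr_getD hW hr (by omega : i < (row W r).w.length)
    have h3 : j ≠ (row W r).w.getD i 0 := by
      rintro rfl
      rw [hj] at h1
      simp at h1
    have h4 : j ≠ (row W r).w.getD i 0 + 1 := by
      intro h
      rw [← h, hj] at h2
      simp at h2
    rw [← ih (by omega)]
    show fl t ti (σ i) ((row W r).w.getD i 0) _ j = _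
    cases σ i
    · simp only [fl, if_neg h3, if_neg h4]
    · simp only [fl, if_neg h3, if_neg h4]
    · rfl

theorem frun_dn {W : Word} (hW : Ok W) (t ti : R) (σ : ℕ → St) {r : ℕ} (hr : r < W.length) (u u' : ℕ → M)
    (hu : ∀ j, (lv W (r + 1))[j]? = some true → u j = u' j)
    {i : ℕ} (hi : i ≤ (row W r).w.length) {j : ℕ} (hj : (lv W (r + 1))[j]? = some true) :
    frun t ti σ (row W r).w u i j = frun t ti σ (row W r).w u' i j := by
  induction i generalizing j with
  | zero => exact hu j hj
  | succ i ih =>
    obtain ⟨h1, h2⟩ := cr_getD hW hr (by omega : i < (row W r).w.length)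
    have e1 := ih (by omega) h1
    have e2 := ih (by omega) h2
    have e3 := ih (by omega) hj
    show fl t ti (σ i) ((row W r).w.getD i 0) _ j = fl t ti (σ i) ((row W r).w.getD i 0) _ j
    cases σ i
    · simp only [fl, e1, e2, e3]
    · simp only [fl, e1, e2, e3]
    · exact e3

/-- the facts for the strands above the row `r` pass to the strands below the extremum -/
theorem fext_up {W : Word} (hW : Ok W) (ξ η : ℕ → M) {r : ℕ} (hr : r < W.length) (u : ℕ → M)
    (hu : ∀ j, (lv W r)[j]? = some false → u j = η (lab W r j) ∧ lab W r j < nb W r) {j : ℕ}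
    (hj : (lv W (r + 1))[j]? = some false) :
    fext (row W r).e (nb W r) ξ η u j = η (lab W (r + 1) j) ∧ lab W (r + 1) j < nb W (r + 1) := by
  rw [lv_succ W hr] at hj
  simp only [lab]
  cases he : (row W r).e with
  | mx k d =>
    have hk := mx_ok hW hr he
    rw [he, get_mx hk] at hj
    rw [nb_succ_mx hr he]
    simp only [fext, ins]
    by_cases h1 : j < k
    · rw [if_pos h1] at hj
      simp only [if_pos h1]
      exact ⟨(hu j hj).1, (hu j hj).2.trans (Nat.lt_succ_self _)⟩
    · rw [if_neg h1] at hj
      simp only [if_neg h1]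
      by_cases h2 : j = k
      · rw [if_pos h2] at hj
        simp only [if_pos h2]
        obtain rfl : d = false := by simpa using hj
        exact ⟨by simp, Nat.lt_succ_self _⟩
      · rw [if_neg h2] at hj
        simp only [if_neg h2]
        by_cases h3 : j = k + 1
        · rw [if_pos h3] at hj
          simp only [if_pos h3]
          obtain rfl : d = true := by simpa using hj
          exact ⟨by simp, Nat.lt_succ_self _⟩
        · rw [if_neg h3] at hj
          simp only [if_neg h3]
          exact ⟨(hu _ hj).1, (hu _ hj).2.trans (Nat.lt_succ_self _)⟩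
  | mn k =>
    obtain ⟨d, h1, h2⟩ := mn_ok hW hr he
    rw [he, get_mn (le_of_get h1)] at hj
    rw [nb_succ_mn hr he]
    simp only [fext, del]
    by_cases h3 : j < k
    · rw [if_pos h3] at hj
      simp only [if_pos h3]
      exact hu j hj
    · rw [if_neg h3] at hj
      simp only [if_neg h3]
      exact hu _ hj

theorem fext_dn {W : Word} (hW : Ok W) (ξ η η' : ℕ → M) {r : ℕ} (hr : r < W.length) (u u' : ℕ → M)
    (hu : ∀ j, (lv W r)[j]? = some true → u j = u' j) {j : ℕ} (hj : (lv W (r + 1))[j]? = some true) :
    fext (row W r).e (nb W r) ξ η u j = fext (row W r).e (nb W r) ξ η' u' j := by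
  rw [lv_succ W hr] at hj
  cases he : (row W r).e with
  | mx k d =>
    have hk := mx_ok hW hr he
    rw [he, get_mx hk] at hj
    simp only [fext, ins]
    by_cases h1 : j < k
    · rw [if_pos h1] at hj
      simp only [if_pos h1]
      exact hu j hj
    · rw [if_neg h1] at hj
      simp only [if_neg h1]
      by_cases h2 : j = k
      · rw [if_pos h2] at hj
        simp only [if_pos h2]
        obtain rfl : d = true := by simpa using hj
        simp
      · rw [if_neg h2] at hj
        simp only [if_neg h2]
        by_cases h3 : j = k + 1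
        · rw [if_pos h3] at hj
          simp only [if_pos h3]
          obtain rfl : d = false := by simpa using hj
          simp
        · rw [if_neg h3] at hj
          simp only [if_neg h3]
          exact hu _ hj
  | mn k =>
    obtain ⟨d, h1, h2⟩ := mn_ok hW hr he
    rw [he, get_mn (le_of_get h1)] at hj
    simp only [fext, del]
    by_cases h3 : j < k
    · rw [if_pos h3] at hj
      simp only [if_pos h3]
      exact hu j hj
    · rw [if_neg h3] at hj
      simp only [if_neg h3]
      exact hu _ hj

/-- B10: upward strands carry `η` of their birth -/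
theorem flow_up {W : Word} (hW : Ok W) (t ti : R) (σ : ℕ → ℕ → St) (ξ η : ℕ → M) {r : ℕ} (hr : r ≤ W.length) {j : ℕ}
    (hj : (lv W r)[j]? = some false) : flow W t ti σ ξ η r j = η (lab W r j) ∧ lab W r j < nb W r := by
  induction r generalizing j with
  | zero => simp [lv] at hj
  | succ r ih =>
    have h1 := fext_up hW ξ η (by omega : r < W.length) (flow W t ti σ ξ η r) (fun j hj => ih (by omega) hj) hj
    refine ⟨?_, h1.2⟩
    rw [← h1.1]
    exact frun_up hW t ti (σ r) (by omega : r < W.length) _ le_rfl hj

/-- B11: downward strands do not depend on `η` -/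
theorem flow_dn {W : Word} (hW : Ok W) (t ti : R) (σ : ℕ → ℕ → St) (ξ η η' : ℕ → M) {r : ℕ} (hr : r ≤ W.length) {j : ℕ}
    (hj : (lv W r)[j]? = some true) : flow W t ti σ ξ η r j = flow W t ti σ ξ η' r j := by
  induction r generalizing j with
  | zero => rfl
  | succ r ih =>
    exact frun_dn hW t ti (σ r) (by omega : r < W.length) _ _
      (fun j hj => fext_dn hW ξ η η' (by omega : r < W.length) _ _ (fun j hj => ih (by omega) hj) hj) le_rfl hj

/-- B10 at the point `(r, i, j)` -/
theorem flowI_up {W : Word} (hW : Ok W) (t ti : R) (σ : ℕ → ℕ → St) (ξ η : ℕ → M) {r : ℕ} (hr : r < W.length)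
    {i : ℕ} (hi : i ≤ (row W r).w.length) {j : ℕ} (hj : (lv W (r + 1))[j]? = some false) :
    flowI W t ti σ ξ η r i j = η (lab W (r + 1) j) := by
  have h1 := fext_up hW ξ η hr (flow W t ti σ ξ η r) (fun j hj => flow_up hW t ti σ ξ η hr.le hj) hj
  rw [← h1.1]
  exact frun_up hW t ti (σ r) hr _ hi hj

/-- B11 at the point `(r, i, j)` -/
theorem flowI_dn {W : Word} (hW : Ok W) (t ti : R) (σ : ℕ → ℕ → St) (ξ η η' : ℕ → M) {r : ℕ} (hr : r < W.length)
    {i : ℕ} (hi : i ≤ (row W r).w.length) {j : ℕ} (hj : (lv W (r + 1))[j]? = some true) :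
    flowI W t ti σ ξ η r i j = flowI W t ti σ ξ η' r i j :=
  frun_dn hW t ti (σ r) hr _ _
    (fun _ hj => fext_dn hW ξ η η' hr _ _ (fun _ hj => flow_dn hW t ti σ ξ η η' hr.le hj) hj) hi hj

end Flow

/-! ### Births and deaths -/

/-- The label `i` is on an upward strand above the row `r`. -/
def Pres (W : Word) (r i : ℕ) : Prop := ∃ j, (lv W r)[j]? = some false ∧ lab W r j = i

/-- The label `i` dies in the row `r`. -/
def Dies (W : Word) (r i : ℕ) : Prop := ∃ k, (row W r).e = .mn k ∧
  (if (lv W r).getD k false = true then lab W r (k + 1) = i else lab W r k = i)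

theorem lab_lt {W : Word} (hW : Ok W) {r : ℕ} (hr : r ≤ W.length) {j : ℕ} (hj : (lv W r)[j]? = some false) :
    lab W r j < nb W r :=
  (flow_up hW (0 : ℤ) 0 (fun _ _ => .pos) (fun _ => (0 : ℤ)) (fun _ => 0) hr hj).2

theorem getD_of {l : List Bool} {k : ℕ} {d : Bool} (h : l[k]? = some d) : l.getD k false = d := by
  rw [List.getD_eq_getElem?_getD, h]
  rfl

theorem lab_inj {W : Word} (hW : Ok W) {r : ℕ} (hr : r ≤ W.length) {j j' : ℕ} (hj : (lv W r)[j]? = some false)
    (hj' : (lv W r)[j']? = some false) (h : lab W r j = lab W r j') : j = j' := by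
  induction r generalizing j j' with
  | zero => simp [lv] at hj
  | succ r ih =>
    have hr' : r < W.length := by omega
    rw [lv_succ W hr'] at hj hj'
    simp only [lab] at h
    cases he : (row W r).e with
    | mx k d =>
      have hk := mx_ok hW hr' he
      rw [he, get_mx hk] at hj hj'
      rw [he] at h
      simp only [ins] at h
      split_ifs at hj with h1 h2 h3 <;> split_ifs at hj' with h4 h5 h6
      · rw [if_pos h1, if_pos h4] at h
        exact ih hr'.le hj hj' h
      · rw [if_pos h1, if_neg h4, if_pos h5] at h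
        exact absurd h (lab_lt hW hr'.le hj).ne
      · rw [if_pos h1, if_neg h4, if_neg h5, if_pos h6] at h
        exact absurd h (lab_lt hW hr'.le hj).ne
      · rw [if_pos h1, if_neg h4, if_neg h5, if_neg h6] at h
        have := ih hr'.le hj hj' h
        omega
      · rw [if_neg h1, if_pos h2, if_pos h4] at h
        exact absurd h.symm (lab_lt hW hr'.le hj').ne
      · omega
      · exfalso
        simp at hj hj'
        rw [hj] at hj'
        simp at hj'
      · rw [if_neg h1, if_pos h2, if_neg h4, if_neg h5, if_neg h6] at h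
        exact absurd h.symm (lab_lt hW hr'.le hj').ne
      · rw [if_neg h1, if_neg h2, if_pos h3, if_pos h4] at h
        exact absurd h.symm (lab_lt hW hr'.le hj').ne
      · exfalso
        simp at hj hj'
        rw [hj'] at hj
        simp at hj
      · omega
      · rw [if_neg h1, if_neg h2, if_pos h3, if_neg h4, if_neg h5, if_neg h6] at h
        exact absurd h.symm (lab_lt hW hr'.le hj').ne
      · rw [if_neg h1, if_neg h2, if_neg h3, if_pos h4] at h
        have := ih hr'.le hj hj' h
        omega
      · rw [if_neg h1, if_neg h2, if_neg h3, if_neg h4, if_pos h5] at h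
        exact absurd h (lab_lt hW hr'.le hj).ne
      · rw [if_neg h1, if_neg h2, if_neg h3, if_neg h4, if_neg h5, if_pos h6] at h
        exact absurd h (lab_lt hW hr'.le hj).ne
      · rw [if_neg h1, if_neg h2, if_neg h3, if_neg h4, if_neg h5, if_neg h6] at h
        have := ih hr'.le hj hj' h
        omega
    | mn k =>
      obtain ⟨d, h1, h2⟩ := mn_ok hW hr' he
      rw [he, get_mn (le_of_get h1)] at hj hj'
      rw [he] at h
      simp only [del] at h
      split_ifs at hj with h3 <;> split_ifs at hj' with h4
      · rw [if_pos h3, if_pos h4] at h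
        exact ih hr'.le hj hj' h
      · rw [if_pos h3, if_neg h4] at h
        have := ih hr'.le hj hj' h
        omega
      · rw [if_neg h3, if_pos h4] at h
        have := ih hr'.le hj hj' h
        omega
      · rw [if_neg h3, if_neg h4] at h
        have := ih hr'.le hj hj' h
        omega

theorem dies_pres {W : Word} (hW : Ok W) {r i : ℕ} (hr : r < W.length) (h : Dies W r i) : Pres W r i := by
  obtain ⟨k, he, h⟩ := h
  obtain ⟨d, h1, h2⟩ := mn_ok hW hr he
  rw [getD_of h1] at h
  cases d with
  | true =>
    rw [if_pos rfl] at h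
    exact ⟨k + 1, by simpa using h2, h⟩
  | false =>
    rw [if_neg (by simp)] at h
    exact ⟨k, h1, h⟩

/-- a label which is present below the row is present above or new -/
theorem pres_of_succ {W : Word} (hW : Ok W) {r i : ℕ} (hr : r < W.length) (h : Pres W (r + 1) i) :
    (Pres W r i ∧ ¬ Dies W r i) ∨ i = nb W r := by
  obtain ⟨j, hj, h⟩ := h
  rw [lv_succ W hr] at hj
  simp only [lab] at h
  cases he : (row W r).e with
  | mx k d =>
    have hk := mx_ok hW hr he
    rw [he, get_mx hk] at hj
    rw [he] at h
    simp only [ins] at h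
    have hd : ¬ Dies W r i := by
      rintro ⟨k', h', -⟩
      rw [he] at h'
      simp at h'
    split_ifs at hj with h1 h2 h3
    · rw [if_pos h1] at h
      exact Or.inl ⟨⟨j, hj, h⟩, hd⟩
    · rw [if_neg h1, if_pos h2] at h
      exact Or.inr h.symm
    · rw [if_neg h1, if_neg h2, if_pos h3] at h
      exact Or.inr h.symm
    · rw [if_neg h1, if_neg h2, if_neg h3] at h
      exact Or.inl ⟨⟨_, hj, h⟩, hd⟩
  | mn k =>
    obtain ⟨d, h1, h2⟩ := mn_ok hW hr he
    rw [he, get_mn (le_of_get h1)] at hj
    rw [he] at h
    simp only [del] at h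
    -- the strand of the label is not one of the two strands of the minimum
    have key : ∀ m, (lv W r)[m]? = some false → lab W r m = i → m ≠ k → m ≠ k + 1 → ¬ Dies W r i := by
      rintro m hm hl hk1 hk2 ⟨k', h', h''⟩
      rw [he] at h'
      obtain rfl : k = k' := by simpa using h'
      rw [getD_of h1] at h''
      cases d with
      | true =>
        rw [if_pos rfl] at h''
        exact hk2 (lab_inj hW hr.le hm (by simpa using h2) (hl.trans h''.symm))
      | false =>
        rw [if_neg (by simp)] at h''
        exact hk1 (lab_inj hW hr.le hm h1 (hl.trans h''.symm))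
    split_ifs at hj with h3
    · rw [if_pos h3] at h
      exact Or.inl ⟨⟨j, hj, h⟩, key j hj h (by omega) (by omega)⟩
    · rw [if_neg h3] at h
      exact Or.inl ⟨⟨j + 2, hj, h⟩, key _ hj h (by omega) (by omega)⟩

/-- a label which is present and does not die stays -/
theorem pres_succ {W : Word} (hW : Ok W) {r i : ℕ} (hr : r < W.length) (h : Pres W r i) (hd : ¬ Dies W r i) :
    Pres W (r + 1) i := by
  obtain ⟨j, hj, h⟩ := h
  unfold Pres
  rw [lv_succ W hr]
  simp only [lab]
  cases he : (row W r).e with
  | mx k d =>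
    have hk := mx_ok hW hr he
    by_cases h1 : j < k
    · exact ⟨j, by rw [get_mx hk, if_pos h1]; exact hj, by simp only [ins, if_pos h1]; exact h⟩
    · refine ⟨j + 2, ?_, ?_⟩
      · rw [get_mx hk, if_neg (by omega), if_neg (by omega), if_neg (by omega)]
        exact hj
      · simp only [ins]
        rw [if_neg (by omega), if_neg (by omega), if_neg (by omega)]
        exact h
  | mn k =>
    obtain ⟨d, h1, h2⟩ := mn_ok hW hr he
    have hk1 : j ≠ k := by
      rintro rfl
      rw [h1] at hj
      obtain rfl : d = false := by simpa using hj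
      exact hd ⟨j, he, by rw [getD_of h1, if_neg (by simp)]; exact h⟩
    have hk2 : j ≠ k + 1 := by
      rintro rfl
      rw [h2] at hj
      obtain rfl : d = true := by simpa using hj
      exact hd ⟨k, he, by rw [getD_of h1, if_pos rfl]; exact h⟩
    by_cases h3 : j < k
    · exact ⟨j, by rw [get_mn (le_of_get h1), if_pos h3]; exact hj, by simp only [del, if_pos h3]; exact h⟩
    · obtain ⟨m, rfl⟩ : ∃ m, j = m + 2 := ⟨j - 2, by omega⟩
      refine ⟨m, ?_, ?_⟩
      · rw [get_mn (le_of_get h1), if_neg (by omega)]
        exact hj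
      · simp only [del]
        rw [if_neg (by omega)]
        exact h

theorem nb_le_succ {W : Word} {r : ℕ} (hr : r < W.length) : nb W r ≤ nb W (r + 1) ∧ nb W (r + 1) ≤ nb W r + 1 := by
  cases he : (row W r).e with
  | mx k d => rw [nb_succ_mx hr he]; omega
  | mn k => rw [nb_succ_mn hr he]; omega

/-- after its death a label does not come back -/
theorem absent {W : Word} (hW : Ok W) {r i : ℕ} (hr : r < W.length) (h : Dies W r i) {r' : ℕ} (h1 : r + 1 ≤ r')
    (h2 : r' ≤ W.length) : ¬ Pres W r' i ∧ i < nb W r' := by
  have hi : i < nb W r := by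
    obtain ⟨j, hj, hl⟩ := dies_pres hW hr h
    rw [← hl]
    exact lab_lt hW hr.le hj
  induction r', h1 using Nat.le_induction with
  | base =>
    refine ⟨fun hp => ?_, lt_of_lt_of_le hi (nb_le_succ hr).1⟩
    rcases pres_of_succ hW hr hp with hp | hp
    · exact hp.2 h
    · omega
  | succ r' h1 ih =>
    have h3 := ih (by omega)
    refine ⟨fun hp => ?_, lt_of_lt_of_le h3.2 (nb_le_succ (by omega)).1⟩
    rcases pres_of_succ hW (by omega) hp with hp | hp
    · exact h3.1 hp.1
    · have := h3.2
      omega

theorem dies_unique {W : Word} (hW : Ok W) {r r' i : ℕ} (hr : r < W.length) (hr' : r' < W.length)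
    (h : Dies W r i) (h' : Dies W r' i) : r = r' := by
  rcases lt_trichotomy r r' with h1 | h1 | h1
  · exact absurd (dies_pres hW hr' h') (absent hW hr h h1 hr'.le).1
  · exact h1
  · exact absurd (dies_pres hW hr h) (absent hW hr' h' h1 hr.le).1

theorem exists_birth {W : Word} {i : ℕ} (hi : i < maxima W) :
    ∃ r < W.length, nb W r = i ∧ ∃ k d, (row W r).e = .mx k d := by
  have h0 : nb W 0 = 0 := rfl
  have h1 : nb W W.length = maxima W := by
    unfold nb
    rw [List.take_length]
  have hex : ∃ r, i < nb W r := ⟨W.length, by rw [h1]; exact hi⟩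
  classical
  have h2 := Nat.find_spec hex
  have h3 : Nat.find hex ≤ W.length := Nat.find_min' hex (by rw [h1]; exact hi)
  obtain ⟨r, hr⟩ : ∃ r, Nat.find hex = r + 1 := by
    rcases Nat.eq_zero_or_pos (Nat.find hex) with h | h
    · rw [h, h0] at h2
      omega
    · exact ⟨Nat.find hex - 1, by omega⟩
  have h4 : ¬ i < nb W r := Nat.find_min hex (by omega)
  rw [hr] at h2 h3
  refine ⟨r, by omega, ?_, ?_⟩
  · have := (nb_le_succ (W := W) (r := r) (by omega)).2
    omega
  · cases he : (row W r).e with
    | mx k d => exact ⟨k, d, rfl⟩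
    | mn k =>
      rw [nb_succ_mn (by omega) he] at h2
      omega

theorem pres_birth {W : Word} (hW : Ok W) {r : ℕ} (hr : r < W.length) {k : ℕ} {d : Bool}
    (he : (row W r).e = .mx k d) : Pres W (r + 1) (nb W r) := by
  have hk := mx_ok hW hr he
  unfold Pres
  rw [lv_succ W hr]
  simp only [lab, he]
  cases d with
  | true =>
    refine ⟨k + 1, ?_, ?_⟩
    · rw [get_mx hk, if_neg (by omega), if_neg (by omega), if_pos rfl]
      rfl
    · simp only [ins]
      rw [if_neg (by omega), if_neg (by omega)]
      rfl
  | false =>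
    refine ⟨k, ?_, ?_⟩
    · rw [get_mx hk, if_neg (by omega), if_pos rfl]
    · simp only [ins]
      rw [if_neg (by omega)]
      rfl

/-- B11': every birth `i` has its upward strand removed exactly once -/
theorem exists_death {W : Word} (hW : Ok W) {i : ℕ} (hi : i < maxima W) : ∃! r : ℕ, r < W.length ∧ ∃ k, (row W r).e = .mn k ∧
    (if (lv W r).getD k false = true then lab W r (k + 1) = i else lab W r k = i) := by
  obtain ⟨r₀, hr₀, rfl, k, d, he⟩ := exists_birth hi
  have hp := pres_birth hW hr₀ he
  have hex : ∃ r, r < W.length ∧ Dies W r (nb W r₀) := by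
    by_contra hne
    push Not at hne
    have : ∀ r, r₀ + 1 ≤ r → r ≤ W.length → Pres W r (nb W r₀) := by
      intro r h1
      induction r, h1 using Nat.le_induction with
      | base => exact fun _ => hp
      | succ r h1 ih => exact fun h2 => pres_succ hW (by omega) (ih (by omega)) (hne r (by omega))
    obtain ⟨j, hj, -⟩ := this W.length (by omega) le_rfl
    rw [hW.closed] at hj
    simp at hj
  obtain ⟨r, hr, hd⟩ := hex
  exact ⟨r, ⟨hr, hd⟩, fun r' h' => dies_unique hW h'.1 hr h'.2 hd⟩

section QQ

variable {R M : Type} [CommRing R] [AddCommGroup M] [Module R M]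

/-- B12 -/
theorem Q_eq {W : Word} (hW : Ok W) (t ti : R) (σ : ℕ → ℕ → St) (ξ : ℕ → M) {r : ℕ} (hr : r < W.length) {k : ℕ}
    (hk : (row W r).e = .mn k) :
    (((lv W r)[k]? = some true ∧ (lv W r)[k + 1]? = some false) ∧
      Q W t ti σ ξ (lab W r (k + 1)) = flow W t ti σ ξ 0 r k) ∨
    (((lv W r)[k]? = some false ∧ (lv W r)[k + 1]? = some true) ∧
      Q W t ti σ ξ (lab W r k) = flow W t ti σ ξ 0 r (k + 1)) := by
  obtain ⟨d, h1, h2⟩ := mn_ok hW hr hk
  -- the other rows do not contribute
  have key : ∀ i, Dies W r i → Q W t ti σ ξ i = if (lv W r).getD k false = true then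
      (if lab W r (k + 1) = i then flow W t ti σ ξ 0 r k else 0)
        else (if lab W r k = i then flow W t ti σ ξ 0 r (k + 1) else 0) := by
    intro i hi
    unfold Q
    rw [Finset.sum_eq_single_of_mem r (Finset.mem_range.2 hr)]
    · rw [hk]
    · intro r' hr' hne
      have hr'' := Finset.mem_range.1 hr'
      cases he : (row W r').e with
      | mx k' d' => rfl
      | mn k' =>
        have hd : ¬ Dies W r' i := fun h => hne (dies_unique hW hr'' hr h hi)
        simp only
        split_ifs with h3 h4 h4
        · exact absurd ⟨k', he, by rw [if_pos h3]; exact h4⟩ hd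
        · rfl
        · exact absurd ⟨k', he, by rw [if_neg h3]; exact h4⟩ hd
        · rfl
  cases d with
  | true =>
    left
    refine ⟨⟨h1, by simpa using h2⟩, ?_⟩
    have hg := getD_of h1
    rw [key _ ⟨k, hk, by rw [if_pos hg]⟩, if_pos hg, if_pos rfl]
  | false =>
    right
    refine ⟨⟨h1, by simpa using h2⟩, ?_⟩
    have hg := getD_of h1
    rw [key _ ⟨k, hk, by rw [if_neg (by rw [hg]; simp)]⟩, if_neg (by rw [hg]; simp), if_pos rfl]

end QQ

end Pool.Agent.Helper48.EV2
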