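import Pool.Agent.Helper48.EV2.Label
import Pool.Agent.Helper59.EV2.QSum
import Pool.Agent.Helper77.EV2.RowsA

/-!
# EV2: the facts about the labels, in the form of `Helper77.EV2.Lb`
-/

set_option autoImplicit false

namespace Pool.Agent.Helper48.EV2

open Pool.Agent.Helper27.EV2 Pool.Agent.Helper85.Exp

theorem lb {W : Word} (hW : Ok W) (t ti : ℂ) : Pool.Agent.Helper77.EV2.Lb W t ti where
  up ξ η r hr j hj := (flow_up hW t ti ps ξ η hr hj).1
  dn ξ η η' r hr j hj := flow_dn hW t ti ps ξ η η' hr hj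
  q ξ r hr k hk := Q_eq hW t ti ps ξ hr hk
  sum ξ i := Pool.Agent.Helper59.EV2.Q_sum hW t ti ps ξ i

end Pool.Agent.Helper48.EV2
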