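import Mathlib

/-!
# Determinant bounds from sup norm bounds on a set of macro nodes
-/

set_option autoImplicit false

namespace Pool.Agent.Helper48.EV2

open Matrix

theorem prod_bounds {lo hi : ℝ} (hlo : 0 ≤ lo) (s : Multiset ℂ)
    (h : ∀ a ∈ s, lo ≤ ‖a‖ ∧ ‖a‖ ≤ hi) :
    lo ^ Multiset.card s ≤ ‖s.prod‖ ∧ ‖s.prod‖ ≤ hi ^ Multiset.card s := by
  induction s using Multiset.induction_on with
  | empty => simp
  | cons a s ih =>
    obtain ⟨h1, h2⟩ := ih fun b hb => h b (Multiset.mem_cons_of_mem hb)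
    obtain ⟨h3, h4⟩ := h a (Multiset.mem_cons_self a s)
    rw [Multiset.prod_cons, norm_mul, Multiset.card_cons, pow_succ', pow_succ']
    exact ⟨mul_le_mul h3 h1 (pow_nonneg hlo _) (norm_nonneg _),
      mul_le_mul h4 h2 (norm_nonneg _) ((norm_nonneg _).trans h4)⟩

/-- sup norm bounds give bounds for the determinant -/
theorem det_of_sup {V : Type*} [Fintype V] [DecidableEq V] (S : Matrix V V ℂ) {lo hi : ℝ}
    (h0 : 0 ≤ lo)
    (hlo : ∀ y : V → ℂ, ∀ F : ℝ, (∀ v, ‖(S *ᵥ y) v‖ ≤ F) → ∀ v, lo * ‖y v‖ ≤ F)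
    (hhi : ∀ y : V → ℂ, ∀ M : ℝ, (∀ v, ‖y v‖ ≤ M) → ∀ v, ‖(S *ᵥ y) v‖ ≤ hi * M) :
    lo ^ Fintype.card V ≤ ‖S.det‖ ∧ ‖S.det‖ ≤ hi ^ Fintype.card V := by
  have hroot : ∀ a ∈ S.charpoly.roots, lo ≤ ‖a‖ ∧ ‖a‖ ≤ hi := by
    intro a ha
    have h1 : S.charpoly.eval a = 0 := Polynomial.isRoot_of_mem_roots ha
    rw [eval_charpoly] at h1
    obtain ⟨v, hv, hv2⟩ := exists_mulVec_eq_zero_iff.2 h1
    have hA : S *ᵥ v = a • v := by
      rw [sub_mulVec, sub_eq_zero] at hv2
      rw [← hv2]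
      ext i
      simp [Matrix.scalar_apply, mulVec_diagonal]
    obtain ⟨i0, hi0⟩ := Function.ne_iff.1 hv
    obtain ⟨i, _, hi⟩ := Finset.exists_max_image Finset.univ (fun i => ‖v i‖) ⟨i0, Finset.mem_univ _⟩
    have hp : 0 < ‖v i‖ := lt_of_lt_of_le (norm_pos_iff.2 hi0) (hi i0 (Finset.mem_univ _))
    have hle : ∀ j, ‖v j‖ ≤ ‖v i‖ := fun j => hi j (Finset.mem_univ _)
    have hval : ∀ j, ‖(S *ᵥ v) j‖ = ‖a‖ * ‖v j‖ := by
      intro j
      rw [hA, Pi.smul_apply, smul_eq_mul, norm_mul]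
    constructor
    · have := hlo v (‖a‖ * ‖v i‖) (fun j => by
        rw [hval]
        exact mul_le_mul_of_nonneg_left (hle j) (norm_nonneg _)) i
      exact le_of_mul_le_mul_right this hp
    · have := hhi v ‖v i‖ hle i
      rw [hval] at this
      exact le_of_mul_le_mul_right this hp
  have hsplit : S.charpoly.Splits := IsAlgClosed.splits _
  have hcard : Multiset.card S.charpoly.roots = Fintype.card V := by
    rw [← hsplit.natDegree_eq_card_roots, charpoly_natDegree_eq_dim]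
  have hdet : det S = S.charpoly.roots.prod := det_eq_prod_roots_charpoly S
  have := prod_bounds h0 _ hroot
  rw [hcard] at this
  rw [hdet]
  exact this

/-- the macro lemma: the nodes outside `P` are eliminated (their determinant is `1`) -/
theorem macro_bounds {V : Type*} [Fintype V] [DecidableEq V] (A : Matrix V V ℂ) (P : V → Prop)
    [DecidablePred P]
    (hD : (A.submatrix (Subtype.val : {v // ¬ P v} → V) Subtype.val).det = 1) {lo hi : ℝ}
    (h0 : 0 ≤ lo)
    (hlo : ∀ y : V → ℂ, ∀ F : ℝ, (∀ v, ¬ P v → (A *ᵥ y) v = 0) →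
      (∀ v, P v → ‖(A *ᵥ y) v‖ ≤ F) → ∀ v, P v → lo * ‖y v‖ ≤ F)
    (hhi : ∀ y : V → ℂ, ∀ M : ℝ, (∀ v, ¬ P v → (A *ᵥ y) v = 0) → (∀ v, P v → ‖y v‖ ≤ M) →
      ∀ v, P v → ‖(A *ᵥ y) v‖ ≤ hi * M) :
    lo ^ Fintype.card {v // P v} ≤ ‖A.det‖ ∧ ‖A.det‖ ≤ hi ^ Fintype.card {v // P v} := by
  classical
  set e : {v // P v} ⊕ {v // ¬ P v} ≃ V := Equiv.sumCompl P with he
  set A11 : Matrix {v // P v} {v // P v} ℂ := A.submatrix Subtype.val Subtype.val with h11
  set A12 : Matrix {v // P v} {v // ¬ P v} ℂ := A.submatrix Subtype.val Subtype.val with h12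
  set A21 : Matrix {v // ¬ P v} {v // P v} ℂ := A.submatrix Subtype.val Subtype.val with h21
  set A22 : Matrix {v // ¬ P v} {v // ¬ P v} ℂ := A.submatrix Subtype.val Subtype.val with h22
  have hblock : A.submatrix e e = fromBlocks A11 A12 A21 A22 := by
    ext i j
    rcases i with i | i <;> rcases j with j | j <;> simp [he, h11, h12, h21, h22, fromBlocks]
  have hu : IsUnit A22.det := by rw [hD]; exact isUnit_one
  set S : Matrix {v // P v} {v // P v} ℂ := A11 - A12 * A22⁻¹ * A21 with hS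
  have hdet : A.det = S.det := by
    have : Invertible A22 := A22.invertibleOfIsUnitDet hu
    rw [← det_submatrix_equiv_self e A, hblock, det_fromBlocks₂₂, hD, one_mul, invOf_eq_nonsing_inv]
  -- the extension of a vector on `P`
  have hext : ∀ x : {v // P v} → ℂ, ∃ y : V → ℂ, (∀ v : {v // P v}, y v = x v) ∧
      (∀ v, ¬ P v → (A *ᵥ y) v = 0) ∧ ∀ v : {v // P v}, (A *ᵥ y) v = (S *ᵥ x) v := by
    intro x
    set z : {v // ¬ P v} → ℂ := - (A22⁻¹ *ᵥ (A21 *ᵥ x)) with hz
    set y : V → ℂ := fun v => Sum.elim x z (e.symm v) with hy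
    have hye : y ∘ e = Sum.elim x z := by
      ext i
      simp [hy]
    have hmul : (A *ᵥ y) ∘ e = fromBlocks A11 A12 A21 A22 *ᵥ Sum.elim x z := by
      rw [← hblock, ← hye]
      ext i
      simp only [Function.comp, mulVec, dotProduct, submatrix_apply]
      exact (Equiv.sum_comp e (fun v => A (e i) v * y v)).symm
    rw [fromBlocks_mulVec] at hmul
    have hA1 : ∀ v : {v // P v}, (A *ᵥ y) v = (A11 *ᵥ x + A12 *ᵥ z) v := by
      intro v
      have := congrFun hmul (Sum.inl v)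
      simpa [he] using this
    have hA2 : ∀ v : {v // ¬ P v}, (A *ᵥ y) v = (A21 *ᵥ x + A22 *ᵥ z) v := by
      intro v
      have := congrFun hmul (Sum.inr v)
      simpa [he] using this
    refine ⟨y, fun v => ?_, fun v hv => ?_, fun v => ?_⟩
    · have := congrFun hye (Sum.inl v)
      simpa [he] using this
    · have := hA2 ⟨v, hv⟩
      rw [hz, mulVec_neg, mulVec_mulVec, mul_nonsing_inv _ hu, one_mulVec] at this
      simpa using this
    · rw [hA1 v, hz, hS, mulVec_neg, sub_mulVec, mulVec_mulVec, mulVec_mulVec,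
        ← sub_eq_add_neg, Matrix.mul_assoc]
  have := det_of_sup S h0 (fun x F hF v => by
      obtain ⟨y, h1, h2, h3⟩ := hext x
      have := hlo y F h2 (fun w hw => by
        have := hF ⟨w, hw⟩
        rw [← h3 ⟨w, hw⟩] at this
        exact this) v v.2
      rwa [h1] at this) (fun x M hM v => by
      obtain ⟨y, h1, h2, h3⟩ := hext x
      have := hhi y M h2 (fun w hw => by
        have := hM ⟨w, hw⟩
        rw [← h1 ⟨w, hw⟩] at this
        exact this) v v.2
      rwa [h3] at this)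
  rw [hdet]
  exact this

end Pool.Agent.Helper48.EV2
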