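import Mathlib

/-! Integer polynomials which are bounded on a disc and not small at one inner point:
the order of vanishing at `0` is bounded and, up to this power of `t`, there is a zero free disc
with uniform radius. -/

set_option autoImplicit false

namespace Pool.Agent.Helper48.EV2

open Polynomial

/-- maximum principle for polynomials on a disc -/
theorem max_disc (P : ℂ[X]) {r C : ℝ} (hr : 0 < r)
    (h : ∀ z : ℂ, ‖z‖ = r → ‖P.eval z‖ ≤ C) : ∀ z : ℂ, ‖z‖ ≤ r → ‖P.eval z‖ ≤ C := by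
  intro z hz
  have hU : Bornology.IsBounded (Metric.ball (0 : ℂ) r) := Metric.isBounded_ball
  have hd : DiffContOnCl ℂ (fun z => P.eval z) (Metric.ball (0 : ℂ) r) :=
    (P.differentiable).diffContOnCl
  apply Complex.norm_le_of_forall_mem_frontier_norm_le hU hd
  · intro w hw
    rw [frontier_ball _ hr.ne', mem_sphere_zero_iff_norm] at hw
    exact h w hw
  · rw [closure_ball _ hr.ne', mem_closedBall_zero_iff]
    exact hz

/-- `P = t ^ n Q` bounded by `C` on the disc of radius `r`: `Q` bounded by `C / r ^ n`. -/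
theorem div_bound (Q : ℂ[X]) {r C : ℝ} (hr : 0 < r) (n : ℕ)
    (h : ∀ z : ℂ, ‖z‖ ≤ r → ‖(X ^ n * Q).eval z‖ ≤ C) :
    ∀ z : ℂ, ‖z‖ ≤ r → ‖Q.eval z‖ ≤ C / r ^ n := by
  apply max_disc Q hr
  intro z hz
  have := h z hz.le
  rw [eval_mul, eval_pow, eval_X, norm_mul, norm_pow, hz] at this
  rw [le_div_iff₀ (pow_pos hr n)]
  linarith

/-- a bounded polynomial is close to its value at `0` -/
theorem near_zero (Q : ℂ[X]) {r C : ℝ} (hr : 0 < r)
    (h : ∀ z : ℂ, ‖z‖ ≤ r → ‖Q.eval z‖ ≤ C) :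
    ∀ z : ℂ, ‖z‖ ≤ r → ‖Q.eval z - Q.coeff 0‖ ≤ 2 * C / r * ‖z‖ := by
  intro z hz
  have hC : ‖Q.coeff 0‖ ≤ C := by
    rw [coeff_zero_eq_eval_zero]
    exact h 0 (by simpa using hr.le)
  have hQ : ∀ w : ℂ, Q.eval w - Q.coeff 0 = (X ^ 1 * Q.divX).eval w := by
    intro w
    have h0 := congrArg (eval w) (divX_mul_X_add Q)
    rw [eval_add, eval_mul, eval_X, eval_C] at h0
    rw [pow_one, eval_mul, eval_X]
    linear_combination -h0
  have h1 : ∀ z : ℂ, ‖z‖ ≤ r → ‖(X ^ 1 * Q.divX).eval z‖ ≤ 2 * C := by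
    intro w hw
    rw [← hQ w]
    calc _ ≤ ‖Q.eval w‖ + ‖Q.coeff 0‖ := norm_sub_le _ _
      _ ≤ C + C := add_le_add (h w hw) hC
      _ = 2 * C := by ring
  have h3 := div_bound Q.divX hr 1 h1 z hz
  rw [hQ z, pow_one, eval_mul, eval_X, norm_mul, mul_comm]
  rw [pow_one] at h3
  exact mul_le_mul_of_nonneg_right h3 (norm_nonneg z)

/-- factor out the power of `X` -/
theorem factor (G : ℤ[X]) (hG : G ≠ 0) : ∃ G₁ : ℤ[X], G = X ^ G.natTrailingDegree * G₁ ∧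
    1 ≤ |G₁.coeff 0| := by
  have hd : X ^ G.natTrailingDegree ∣ G := by
    rw [X_pow_dvd_iff]
    intro d hd
    exact coeff_eq_zero_of_lt_natTrailingDegree hd
  obtain ⟨G₁, h⟩ := hd
  refine ⟨G₁, h, ?_⟩
  have h1 : G.coeff G.natTrailingDegree = G₁.coeff 0 := by
    have h3 := coeff_X_pow_mul G₁ G.natTrailingDegree 0
    rw [zero_add] at h3
    rw [← h3, ← h]
  have h2 : G.coeff G.natTrailingDegree ≠ 0 := by
    have := trailingCoeff_nonzero_iff_nonzero.2 hG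
    exact this
  rw [h1] at h2
  exact Int.one_le_abs h2

/-- **Zero free disc.** -/
theorem zero_free (t₀ t₁ K m : ℝ) (h1 : 0 < t₁) (h2 : t₁ < t₀) (hK : 0 < K) (hm : 0 < m) :
    ∃ T > 0, ∃ K₁ > 0, ∃ ν₀ : ℕ, ∀ G : ℤ[X], (∀ t : ℂ, ‖t‖ ≤ t₀ → ‖aeval t G‖ ≤ K) →
      m ≤ ‖aeval (t₁ : ℂ) G‖ → G.natTrailingDegree ≤ ν₀ ∧
        ∀ t : ℂ, ‖t‖ ≤ T → ‖t‖ ^ G.natTrailingDegree / 2 ≤ ‖aeval t G‖ ∧
          ‖aeval t G‖ ≤ K₁ * ‖t‖ ^ G.natTrailingDegree := by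
  have h0 : 0 < t₀ := h1.trans h2
  have hq : 1 < t₀ / t₁ := by rwa [one_lt_div h1]
  have hlq : 0 < Real.log (t₀ / t₁) := Real.log_pos hq
  obtain ⟨ν₀, hν₀⟩ := exists_nat_ge (Real.log (K / m) / Real.log (t₀ / t₁))
  -- uniform bound of the quotient
  set B : ℝ := max 1 (t₀⁻¹ ^ ν₀) * K with hB
  have hB0 : 0 < B := by positivity
  refine ⟨min t₀ (t₀ / (4 * B)), by positivity, B, hB0, ν₀, ?_⟩
  intro G hb hl
  have hG : G ≠ 0 := by
    rintro rfl
    simp at hl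
    linarith
  obtain ⟨G₁, hG₁, hc⟩ := factor G hG
  set ν := G.natTrailingDegree with hν
  set Q : ℂ[X] := G₁.map (Int.castRingHom ℂ) with hQ
  have hev : ∀ t : ℂ, aeval t G = (X ^ ν * Q).eval t := by
    intro t
    rw [hQ, aeval_def, ← eval_map, algebraMap_int_eq]
    conv_lhs => rw [hG₁]
    simp
  have hb1 : ∀ z : ℂ, ‖z‖ ≤ t₀ → ‖Q.eval z‖ ≤ K / t₀ ^ ν := by
    apply div_bound Q h0 ν
    intro z hz
    rw [← hev]
    exact hb z hz
  have hν1 : ν ≤ ν₀ := by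
    have h3 : m ≤ t₁ ^ ν * (K / t₀ ^ ν) := by
      calc m ≤ ‖aeval (t₁ : ℂ) G‖ := hl
        _ = t₁ ^ ν * ‖Q.eval (t₁ : ℂ)‖ := by
          rw [hev, eval_mul, eval_pow, eval_X, norm_mul, norm_pow, Complex.norm_real,
            Real.norm_of_nonneg h1.le]
        _ ≤ _ := mul_le_mul_of_nonneg_left
          (hb1 _ (by rw [Complex.norm_real, Real.norm_of_nonneg h1.le]; exact h2.le))
          (by positivity)
    have h4 : (t₀ / t₁) ^ ν ≤ K / m := by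
      rw [div_pow, div_le_div_iff₀ (by positivity) hm]
      have h5 : t₁ ^ ν * (K / t₀ ^ ν) = K * t₁ ^ ν / t₀ ^ ν := by ring
      rw [h5, le_div_iff₀ (by positivity)] at h3
      linarith
    have h6 : (ν : ℝ) * Real.log (t₀ / t₁) ≤ Real.log (K / m) := by
      rw [← Real.log_pow]
      exact Real.log_le_log (by positivity) h4
    have h7 : (ν : ℝ) ≤ Real.log (K / m) / Real.log (t₀ / t₁) := by
      rwa [le_div_iff₀ hlq]
    exact_mod_cast h7.trans hν₀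
  have hb2 : ∀ z : ℂ, ‖z‖ ≤ t₀ → ‖Q.eval z‖ ≤ B := by
    intro z hz
    refine (hb1 z hz).trans ?_
    have h8 : (t₀ ^ ν)⁻¹ ≤ max 1 (t₀⁻¹ ^ ν₀) := by
      rw [← inv_pow]
      rcases le_total 1 t₀⁻¹ with h | h
      · exact le_max_of_le_right (pow_le_pow_right₀ h hν1)
      · exact le_max_of_le_left (pow_le_one₀ (by positivity) h)
    rw [hB, div_eq_mul_inv, mul_comm]
    exact mul_le_mul_of_nonneg_right h8 hK.le
  have hcQ : 1 ≤ ‖Q.coeff 0‖ := by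
    rw [hQ, coeff_map, eq_intCast, Complex.norm_intCast]
    exact_mod_cast hc
  refine ⟨hν1, ?_⟩
  intro t ht
  have ht0 : ‖t‖ ≤ t₀ := ht.trans (min_le_left _ _)
  have ht1 : ‖t‖ ≤ t₀ / (4 * B) := ht.trans (min_le_right _ _)
  have hn := near_zero Q h0 hb2 t ht0
  have hn1 : 2 * B / t₀ * ‖t‖ ≤ 1 / 2 := by
    calc 2 * B / t₀ * ‖t‖ ≤ 2 * B / t₀ * (t₀ / (4 * B)) :=
          mul_le_mul_of_nonneg_left ht1 (by positivity)
      _ = 1 / 2 := by field_simp; norm_num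
  have hlow : 1 / 2 ≤ ‖Q.eval t‖ := by
    have h9 : ‖Q.coeff 0‖ ≤ ‖Q.eval t‖ + ‖Q.eval t - Q.coeff 0‖ := by
      have : Q.coeff 0 = Q.eval t - (Q.eval t - Q.coeff 0) := by ring
      calc ‖Q.coeff 0‖ = ‖Q.eval t - (Q.eval t - Q.coeff 0)‖ := by rw [← this]
        _ ≤ _ := norm_sub_le _ _
    linarith
  rw [hev, eval_mul, eval_pow, eval_X, norm_mul, norm_pow]
  constructor
  · calc ‖t‖ ^ ν / 2 = ‖t‖ ^ ν * (1 / 2) := by ring
      _ ≤ _ := mul_le_mul_of_nonneg_left hlow (by positivity)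
  · rw [mul_comm]
    exact mul_le_mul_of_nonneg_right (hb2 t ht0) (by positivity)

end Pool.Agent.Helper48.EV2
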